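import Mathlib
import Pool.Agent.H22.Jac

set_option autoImplicit false

namespace Pool.Agent.Results.MP_2093e0_al.Characterization

open Polynomial Pool.Agent.H22.Jac

/-- Strongly nil-clean elements. -/
def StronglyNilClean {R : Type*} [Ring R] (a : R) : Prop :=
  ∃ e b : R, e * e = e ∧ IsNilpotent b ∧ e * b = b * e ∧ a = e + b

/-- Strongly weakly nil-clean rings. -/
def StronglyWeaklyNilClean (R : Type*) [Ring R] : Prop :=
  ∀ a : R, StronglyNilClean a ∨ StronglyNilClean (-a)

/-- Weakly UU rings. -/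
def WUU (R : Type*) [Ring R] : Prop :=
  ∀ u : Rˣ, ∃ n : R, IsNilpotent n ∧ ((u : R) = n + 1 ∨ (u : R) = n - 1)

/-- Semi-potent rings: right ideals not inside the radical contain a nonzero idempotent. -/
def SemiPotent (R : Type*) [Ring R] : Prop :=
  ∀ I : Submodule Rᵐᵒᵖ R, (∃ x ∈ I, x ∉ Ring.jacobson R) → ∃ e ∈ I, e * e = e ∧ e ≠ 0

theorem poly (N : ℕ) : ∃ E q m : ℤ[X], E * (1 - E) = (X * (1 - X)) ^ (N + 1) * q ∧
    X - E = X * (1 - X) * m := by
  obtain ⟨k, hk⟩ := one_sub_dvd_one_sub_pow (X : ℤ[X]) (N + 1)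
  obtain ⟨l, hl⟩ := one_sub_dvd_one_sub_pow (1 - (X : ℤ[X]) ^ (N + 1)) (N + 1)
  refine ⟨1 - (1 - X ^ (N + 1)) ^ (N + 1), l * k ^ (N + 1),
    (1 - X) ^ N * k ^ (N + 1) - X ^ N * l, ?_, ?_⟩
  · rw [sub_sub_cancel, hl, sub_sub_cancel]
    rw [hk, mul_pow, mul_pow]; ring
  · have h1 : (1 - (X : ℤ[X]) ^ (N + 1)) ^ (N + 1) = (1 - X) ^ N * k ^ (N + 1) * (1 - X) := by
      rw [hk, mul_pow]; ring
    rw [sub_sub_cancel] at hl
    linear_combination X * h1 - (1 - X) * hl

theorem snc_of_nil {R : Type*} [Ring R] (a : R) (h : IsNilpotent (a * (1 - a))) :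
    StronglyNilClean a := by
  obtain ⟨N, hN⟩ := h
  obtain ⟨E, q, m, e1, e2⟩ := poly N
  obtain ⟨φ, hφ⟩ : ∃ φ : ℤ[X] →+* R, φ X = a :=
    ⟨eval₂RingHom' (Int.castRingHom _) a (fun m => Int.cast_commute m _), eval₂_X _ _⟩
  have h1 : φ ((X * (1 - X)) ^ (N + 1)) = 0 := by
    simp only [map_pow, map_mul, map_sub, map_one, hφ, pow_succ, hN, zero_mul]
  refine ⟨φ E, φ (X - E), ?_, ⟨N + 1, ?_⟩, ?_, ?_⟩
  · have := congrArg φ e1
    rw [map_mul φ _ q, h1, zero_mul, map_mul, map_sub, map_one, mul_sub, mul_one,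
      sub_eq_zero] at this
    exact this.symm
  · rw [← map_pow, e2, mul_pow, map_mul, h1, zero_mul]
  · rw [← map_mul, ← map_mul, mul_comm]
  · rw [← map_add, add_sub_cancel, hφ]

theorem not_nil {Q : Type*} [Ring Q] {x y E : Q} (hE : E * E = E) (hE0 : E ≠ 0) (h : x * y = E)
    (hc : x * y = y * x) : ¬ IsNilpotent x := by
  rintro ⟨n, hn⟩
  have h1 : Commute x y := hc
  have h2 := (h1.mul_pow (n + 1))
  rw [pow_succ x, hn, zero_mul, zero_mul, h] at h2
  exact hE0 ((IsIdempotentElem.pow_succ_eq n hE).symm.trans h2)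

theorem core {Q : Type*} [Ring Q] (H1 : ∀ a : Q, a ≠ 0 → ∃ r, a * r * (a * r) = a * r ∧ a * r ≠ 0)
    (H2 : ∀ u v : Q, u * v = 1 → v * u = 1 → IsNilpotent (u - 1) ∨ IsNilpotent (u + 1))
    (a : Q) : a * a = a ∨ a * a = -a := by
  have red : ∀ a : Q, a * a = 0 → a = 0 := by
    intro a ha
    by_contra h0
    obtain ⟨r, he, he0⟩ := H1 a h0
    obtain ⟨e, hr⟩ : ∃ e, e = a * r := ⟨_, rfl⟩
    rw [← hr] at he he0
    have hae : a * e = 0 := by rw [hr, ← mul_assoc, ha, zero_mul]
    obtain ⟨p, hp⟩ : ∃ p, p = e * a := ⟨_, rfl⟩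
    obtain ⟨q, hq⟩ : ∃ q, q = (1 - e) * r * e := ⟨_, rfl⟩
    have ep : e * p = p := by rw [hp, ← mul_assoc, he]
    have pe : p * e = 0 := by rw [hp, mul_assoc, hae, mul_zero]
    have eq : e * q = 0 := by
      rw [hq, ← mul_assoc, ← mul_assoc, mul_sub, mul_one, he, sub_self, zero_mul, zero_mul]
    have qe : q * e = q := by rw [hq, mul_assoc, he]
    have pq : p * q = e := by
      calc p * q = e * (a * r) * e - e * (a * e) * r * e := by rw [hp, hq]; noncomm_ring
        _ = e := by rw [← hr, hae, he, he]; simp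
    have pp : p * p = 0 := by
      calc p * p = p * e * p := by rw [mul_assoc, ep]
        _ = 0 := by rw [pe, zero_mul]
    have qq : q * q = 0 := by
      calc q * q = q * (e * q) := by rw [← mul_assoc, qe]
        _ = 0 := by rw [eq, mul_zero]
    have ep' : ∀ x, e * (p * x) = p * x := fun x => by rw [← mul_assoc, ep]
    have pe' : ∀ x, p * (e * x) = 0 := fun x => by rw [← mul_assoc, pe, zero_mul]
    have eq' : ∀ x, e * (q * x) = 0 := fun x => by rw [← mul_assoc, eq, zero_mul]
    have qe' : ∀ x, q * (e * x) = q * x := fun x => by rw [← mul_assoc, qe]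
    have pq' : ∀ x, p * (q * x) = e * x := fun x => by rw [← mul_assoc, pq]
    have pp' : ∀ x, p * (p * x) = 0 := fun x => by rw [← mul_assoc, pp, zero_mul]
    have qq' : ∀ x, q * (q * x) = 0 := fun x => by rw [← mul_assoc, qq, zero_mul]
    have ee' : ∀ x, e * (e * x) = e * x := fun x => by rw [← mul_assoc, he]
    have hE : (e + q * p) * (e + q * p) = e + q * p := by
      simp only [mul_add, add_mul, mul_assoc, he, ep, pe, eq', pq', qe', mul_zero, add_zero,
        zero_add]
    have hE0 : e + q * p ≠ 0 := by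
      intro h
      have := congrArg (e * ·) h
      simp only [mul_add, he, eq', add_zero, mul_zero] at this
      exact he0 this
    have all : (p + q + 1 - e) * (p + q + 1 - e - e - q * p) = 1 ∧
        (p + q + 1 - e - e - q * p) * (p + q + 1 - e) = 1 ∧
        (p + q + 1 - e - 1) * (p + q + q * p) = e + q * p ∧
        (p + q + q * p) * (p + q + 1 - e - 1) = e + q * p ∧
        (p + q + 1 - e + 1) * (e + e - p - q + q * p) = e + q * p ∧
        (e + e - p - q + q * p) * (p + q + 1 - e + 1) = e + q * p := by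
      simp only [mul_add, add_mul, mul_sub, sub_mul, mul_assoc, he, ep, pe, eq, qe, pq, pp, qq,
        ep', pe', eq', pq', qe', pp', qq', ee', mul_zero, add_zero, zero_add, one_mul, mul_one]
      refine ⟨?_, ?_, ?_, ?_, ?_, ?_⟩ <;> abel
    obtain ⟨a1, a2, a3, a4, a5, a6⟩ := all
    rcases H2 _ _ a1 a2 with h | h
    · exact not_nil hE hE0 a3 (a3.trans a4.symm) h
    · exact not_nil hE hE0 a5 (a5.trans a6.symm) h
  have hred : IsReduced Q := (isReduced_iff_pow_one_lt 2 (by norm_num)).2 fun x hx =>
    red x (by rw [← sq, hx])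
  have cen : ∀ e x : Q, e * e = e → e * x = x * e := by
    intro e x he
    have h1 := red (e * x * (1 - e)) (by
      calc _ = e * x * (e - e * e) * x * (1 - e) := by noncomm_ring
        _ = 0 := by rw [he]; simp)
    have h2 := red ((1 - e) * x * e) (by
      calc _ = (1 - e) * x * (e - e * e) * x * e := by noncomm_ring
        _ = 0 := by rw [he]; simp)
    rw [mul_sub, mul_one, sub_eq_zero] at h1
    rw [sub_mul, sub_mul, one_mul, sub_eq_zero] at h2
    rw [h1, ← h2]
  have un : ∀ u v : Q, u * v = 1 → u = 1 ∨ u = -1 := by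
    intro u v h
    have h1 : v * u = 1 := by
      have h2 : v * u * (v * u) = v * u := by rw [mul_assoc, ← mul_assoc u, h, one_mul]
      calc v * u = v * u * u * v := by rw [mul_assoc _ u v, h, mul_one]
        _ = 1 := by rw [cen _ u h2, ← mul_assoc, h, one_mul, h]
    exact (H2 u v h h1).imp (fun h => sub_eq_zero.1 h.eq_zero)
      fun h => eq_neg_of_add_eq_zero_left h.eq_zero
  have cube : a * a * a = a := by
    by_contra h0
    obtain ⟨r, he, he0⟩ := H1 (a - a * a * a) (sub_ne_zero.2 (Ne.symm h0))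
    obtain ⟨e, hr⟩ : ∃ e, e = (a - a * a * a) * r := ⟨_, rfl⟩
    rw [← hr] at he he0
    have h1 := un (e * a + (1 - e)) (e * ((1 - a * a) * r) + (1 - e)) (by
      calc _ = e * (a * e) * ((1 - a * a) * r) + e * (a * (1 - e)) +
          (e - e * e) * ((1 - a * a) * r) + (1 - e - e + e * e) := by noncomm_ring
        _ = e * e * ((a - a * a * a) * r) + (e - e * e) * a +
          (e - e * e) * ((1 - a * a) * r) + (1 - e - e + e * e) := by
            rw [mul_sub a, ← cen e a he]; noncomm_ring
        _ = 1 := by rw [← hr, he, he]; noncomm_ring)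
    have h2 : e * (a * a) = e := by
      have h3 : e * (e * a + (1 - e)) = e * a := by
        rw [mul_add, mul_sub, mul_one, he, sub_self, add_zero, ← mul_assoc, he]
      rcases h1 with h1 | h1 <;> rw [h1] at h3
      · rw [← mul_assoc, ← h3, mul_one, ← h3, mul_one]
      · rw [← mul_assoc, ← h3, mul_neg, mul_one, neg_mul, ← h3]; simp
    apply he0
    calc e = e * ((a - a * a * a) * r) := by rw [← hr, he]
      _ = (e * a - e * (a * a) * a) * r := by noncomm_ring
      _ = 0 := by rw [h2]; simp
  have h1 := un (a + (1 - a * a)) (a + (1 - a * a)) (by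
    calc _ = 1 + (a - a * a * a) + (a - a * a * a) - (a - a * a * a) * a := by noncomm_ring
      _ = 1 := by rw [cube]; simp)
  rcases h1 with h1 | h1
  · left
    have : a - a * a = 0 := by
      calc a - a * a = a + (1 - a * a) - 1 := by abel
        _ = 0 := by rw [h1, sub_self]
    exact (sub_eq_zero.1 this).symm
  · right
    have := congrArg (a * ·) h1
    simp only [mul_add, mul_sub, mul_one, ← mul_assoc, cube, sub_self, add_zero, mul_neg] at this
    exact this

theorem idem_jac {R : Type*} [Ring R] {e : R} (he : e * e = e) (h : e ∈ Ring.jacobson R) :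
    e = 0 := by
  have h1 := isUnit_one_add ((Ring.jacobson R).neg_mem h)
  rw [← h1.mul_right_eq_zero, add_mul, one_mul, neg_mul, he, add_neg_cancel]

/-- A ring is strongly weakly nil-clean iff it is semi-potent and WUU. -/
theorem result (R : Type*) [Ring R] : StronglyWeaklyNilClean R ↔ SemiPotent R ∧ WUU R := by
  constructor
  · intro h
    constructor
    · rintro I ⟨x, hx, hxJ⟩
      have key : ∀ a ∈ I, ¬ IsNilpotent a → StronglyNilClean a → ∃ e ∈ I, e * e = e ∧ e ≠ 0 := by
        rintro a ha hn ⟨e, b, he, hb, hc, rfl⟩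
        refine ⟨e, ?_, he, ?_⟩
        · obtain ⟨u, hu⟩ := hb.isUnit_one_add
          have := I.smul_mem (MulOpposite.op (e * ↑u⁻¹)) ha
          rw [op_smul_eq_mul, ← mul_assoc, add_mul, he, ← hc, ← mul_one_add, ← hu,
            Units.mul_inv_cancel_right] at this
          exact this
        · rintro rfl
          exact hn (by simpa using hb)
      by_contra h0
      apply hxJ
      refine mem_of_right fun y => IsNilpotent.isUnit_one_add ?_
      have hm : x * y ∈ I := I.smul_mem (MulOpposite.op y) hx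
      by_contra hn
      rcases h (x * y) with h1 | h1
      · exact h0 (key _ hm hn h1)
      · exact h0 (key _ (I.neg_mem hm) (fun h2 => hn (by simpa using h2)) h1)
    · have key : ∀ u : Rˣ, StronglyNilClean (u : R) → IsNilpotent ((u : R) - 1) := by
        rintro u ⟨e, b, he, hb, hc, hu⟩
        have h1 : IsUnit e := by
          have h2 : Commute b (u : R) := by
            rw [hu]; exact Commute.add_right hc.symm (Commute.refl b)
          have := hb.neg.isUnit_add_left_of_commute u.isUnit h2.neg_left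
          rwa [hu, add_neg_cancel_right] at this
        have h2 : e = 1 := h1.mul_left_cancel (by rw [he, mul_one])
        rw [hu, h2]; simpa using hb
      intro u
      rcases h u with h1 | h1
      · exact ⟨_, key u h1, Or.inl (by simp)⟩
      · exact ⟨_, (key (-u) h1).neg, Or.inr (by simp)⟩
  · rintro ⟨h1, h2⟩ a
    have nil : ∀ j ∈ Ring.jacobson R, IsNilpotent j := by
      intro j hj
      obtain ⟨u, hu⟩ := isUnit_one_add hj
      obtain ⟨v, hv⟩ := isUnit_one_add ((Ring.jacobson R).neg_mem hj)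
      obtain ⟨n, hn, h3 | h3⟩ := h2 u
      · rw [hu, add_comm, add_left_inj] at h3
        exact h3 ▸ hn
      obtain ⟨m, hm, h4 | h4⟩ := h2 v
      · rw [hv, add_comm, add_left_inj] at h4
        simpa [← h4] using hm
      have e1 : n = 2 + j := by
        rw [hu, eq_sub_iff_add_eq] at h3
        rw [← h3, ← one_add_one_eq_two]; abel
      have e2 : m = 2 - j := by
        rw [hv, eq_sub_iff_add_eq] at h4
        rw [← h4, ← one_add_one_eq_two]; abel
      have c1 : Commute n m := by rw [e1, e2]; change _ = _; noncomm_ring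
      have h5 := c1.isNilpotent_add hn hm
      have h6 : IsNilpotent (2 : R) := by
        refine IsNilpotent.of_pow (m := 2) ?_
        convert h5 using 1
        rw [e1, e2, ← one_add_one_eq_two]; noncomm_ring
      have c2 : Commute n 2 := (Commute.ofNat_right n 2)
      have := c2.isNilpotent_sub hn h6
      rwa [e1, add_sub_cancel_left] at this
    let π := Ideal.Quotient.mk (Ring.jacobson R)
    have hπ : ∀ x, π x = 0 ↔ x ∈ Ring.jacobson R := fun x => Ideal.Quotient.eq_zero_iff_mem
    have := core (Q := R ⧸ Ring.jacobson R) ?_ ?_ (π a)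
    · rcases this with h | h
      · refine Or.inl (snc_of_nil _ (nil _ ((hπ _).1 ?_)))
        rw [mul_sub, mul_one, map_sub, map_mul, h, sub_self]
      · refine Or.inr (snc_of_nil _ (nil _ ((hπ _).1 ?_)))
        rw [mul_sub, mul_one, neg_mul_neg, map_sub, map_mul, h, map_neg, sub_self]
    · intro x hx
      obtain ⟨x, rfl⟩ := Ideal.Quotient.mk_surjective x
      obtain ⟨e, he, h3, h4⟩ := h1 (Submodule.span _ {x})
        ⟨x, Submodule.subset_span rfl, fun h => hx ((hπ _).2 h)⟩
      obtain ⟨r, rfl⟩ := Submodule.mem_span_singleton.1 he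
      rw [← r.op_unop, op_smul_eq_mul] at h3 h4
      refine ⟨π r.unop, ?_, fun h => h4 (idem_jac h3 ((hπ _).1 (by rw [map_mul]; exact h)))⟩
      have := congrArg π h3
      simpa only [map_mul] using this
    · intro u v h3 h4
      obtain ⟨u, rfl⟩ := Ideal.Quotient.mk_surjective u
      obtain ⟨v, rfl⟩ := Ideal.Quotient.mk_surjective v
      have h5 := isUnit_one_add ((hπ (u * v - 1)).1 (by
        rw [map_sub, map_mul, map_one]; exact sub_eq_zero.2 h3))
      have h6 := isUnit_one_add ((hπ (v * u - 1)).1 (by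
        rw [map_sub, map_mul, map_one]; exact sub_eq_zero.2 h4))
      rw [add_sub_cancel] at h5 h6
      obtain ⟨x, hx⟩ := h5.exists_right_inv
      obtain ⟨y, hy⟩ := h6.exists_left_inv
      have hu : IsUnit u := by
        rw [mul_assoc] at hx
        rw [← mul_assoc] at hy
        exact ⟨⟨u, v * x, hx, left_inv_eq_right_inv hy hx ▸ hy⟩, rfl⟩
      obtain ⟨u, rfl⟩ := hu
      obtain ⟨n, hn, h7 | h7⟩ := h2 u
      · left
        rw [h7, map_add, map_one, add_sub_cancel_right]
        exact hn.map _
      · right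
        rw [h7, map_sub, map_one, sub_add_cancel]
        exact hn.map _

end Pool.Agent.Results.MP_2093e0_al.Characterization
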